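import Pool.Agent.Lib.MP_26616c_an.Final

/-!
Full answer to Q1: there is an absolute constant `c > 0` such that, for every non-elliptic
continuous semigroup of holomorphic self-maps of the unit disc with Denjoy-Wolff point `1`,
the harmonic measure `h_t(z_s)` of the two rays beyond radius `rho_t`, seen from any later
point `z_s` of the orbit, is at least `c`.

Proof sketch. Let `z_t` be the orbit in the right half-plane. By Julia-Wolff its real part does not
decrease. If the orbit made, before its real part reaches `x`, a vertical excursion of height
`38 x` beyond its final height, then the displacement `phi_eps(w) - w` in the half-plane, a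
holomorphic function with nonnegative real part, would point upwards along a long vertical
stretch and downwards along the same stretch on the way back. The Poisson (Harnack type) lower
bound turns each passage into a lower bound for the real displacement made on the other passage;
an upcrossing argument shows that the total horizontal displacement exceeds `x`, a contradiction.
Hence `|z_t| <= |Im z_s| + 39 Re z_s` for `t <= s`, which gives the bound on harmonic measure.
-/

set_option autoImplicit false

namespace Pool.Agent.Results.MP_26616c_an.OrbitHarmonicMeasure

open Pool.Agent.MP26616c

theorem result (phi : ℝ → ℂ → ℂ) (h : IsContSemigroup phi) (_hne : NonElliptic phi)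
    (hd : HasDWPoint phi 1) (t s : ℝ) (ht : 0 ≤ t) (hts : t ≤ s) :
    39 / (6085 * Real.pi) ≤ rayMeas phi t (orbitPt phi s) := by
  have h1 := ray_bound h hd ht hts
  have e : 39 / (6085 * Real.pi) = 1 / Real.pi * (39 / 6085) := by
    have := Real.pi_pos
    field_simp
  rw [e]
  exact h1

end Pool.Agent.Results.MP_26616c_an.OrbitHarmonicMeasure
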